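import Pool.Agent.GolPar.Defs

set_option autoImplicit false

/-!
# Counting
-/

namespace GolPar

variable {F : Type*} [Field F] [Fintype F] [DecidableEq F]

/-- all dots -/
def all (α β : F) : Finset (ℕ × ℕ) :=
  (Finset.Icc 1 (Fintype.card F - 2) ×ˢ Finset.Icc 1 (Fintype.card F - 2)).filter
    (fun x => α ^ x.1 + β ^ x.2 = 1)

end GolPar
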