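import Pool.Agent.GolPar.All

set_option autoImplicit false

/-!
# Counting

The maps from the dots (all parities) to the first coordinate, to the second coordinate and to the power of
the primitive element are bijections, as both elements have order q - 1.
-/

namespace GolPar

variable {F : Type*} [Field F] [Fintype F] [DecidableEq F]

omit [DecidableEq F] in
private theorem ne_zero' {β : F} (hβ : orderOf β = Fintype.card F - 1) : β ≠ 0 := by
  have hcard : 1 < Fintype.card F := Fintype.one_lt_card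
  rintro rfl
  rw [orderOf_zero] at hβ
  omega

private theorem exists_pow' {β : F} (hβ : orderOf β = Fintype.card F - 1) {y : F} (hy : y ≠ 0) :
    ∃ j, j < Fintype.card F - 1 ∧ β ^ j = y := by
  have hβ0 := ne_zero' hβ
  have h1 : orderOf (Units.mk0 β hβ0) = Nat.card Fˣ := by
    rw [Nat.card_eq_fintype_card, Fintype.card_units, ← hβ, ← orderOf_units]
    rfl
  have h2 : Subgroup.zpowers (Units.mk0 β hβ0) = ⊤ :=
    Subgroup.eq_top_of_card_eq _ ((Nat.card_zpowers _).trans h1)
  have h3 : Units.mk0 y hy ∈ Subgroup.zpowers (Units.mk0 β hβ0) := by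
    rw [h2]
    exact Subgroup.mem_top _
  rw [mem_zpowers_iff_mem_range_orderOf, Finset.mem_image] at h3
  obtain ⟨j, hj, h4⟩ := h3
  refine ⟨j, ?_, ?_⟩
  · rw [Finset.mem_range, h1, Nat.card_eq_fintype_card, Fintype.card_units] at hj
    exact hj
  · have := congrArg Units.val h4
    simpa using this

omit [DecidableEq F] in
private theorem pow_inj' {β : F} (hβ : orderOf β = Fintype.card F - 1) {i j : ℕ}
    (hi : i < Fintype.card F - 1) (hj : j < Fintype.card F - 1) (h : β ^ i = β ^ j) : i = j :=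
  pow_injOn_Iio_orderOf (by rw [Set.mem_Iio, hβ]; exact hi) (by rw [Set.mem_Iio, hβ]; exact hj) h

omit [DecidableEq F] in
private theorem pow_ne_one' {β : F} (hβ : orderOf β = Fintype.card F - 1) {i : ℕ}
    (hi : i < Fintype.card F - 1) (h0 : 1 ≤ i) : β ^ i ≠ 1 := by
  intro h
  have := pow_inj' hβ hi (by omega : 0 < Fintype.card F - 1) (by rw [h, pow_zero])
  omega

private theorem mem_all' {α β : F} {x : ℕ × ℕ} : x ∈ all α β ↔
    ((1 ≤ x.1 ∧ x.1 ≤ Fintype.card F - 2) ∧ (1 ≤ x.2 ∧ x.2 ≤ Fintype.card F - 2)) ∧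
      α ^ x.1 + β ^ x.2 = 1 := by
  rw [all, Finset.mem_filter, Finset.mem_product, Finset.mem_Icc, Finset.mem_Icc]

private theorem exists_snd {α β : F} (hα : orderOf α = Fintype.card F - 1)
    (hβ : orderOf β = Fintype.card F - 1) {i : ℕ} (h1 : 1 ≤ i) (h2 : i ≤ Fintype.card F - 2) :
    ∃ j, (i, j) ∈ all α β := by
  have hcard : 1 < Fintype.card F := Fintype.one_lt_card
  have h3 : α ^ i ≠ 1 := pow_ne_one' hα (by omega) h1
  obtain ⟨j, hj, h4⟩ := exists_pow' hβ (y := 1 - α ^ i) (sub_ne_zero.2 h3.symm)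
  refine ⟨j, mem_all'.2 ⟨⟨⟨h1, h2⟩, ?_, ?_⟩, ?_⟩⟩
  · by_contra h5
    have : j = 0 := by omega
    subst this
    rw [pow_zero] at h4
    have h6 : α ^ i = 0 := by
      have : 1 - (1 - α ^ i) = 1 - 1 := by rw [← h4]
      simpa using this
    exact pow_ne_zero i (ne_zero' hα) h6
  · show j ≤ Fintype.card F - 2
    omega
  · show α ^ i + β ^ j = 1
    rw [h4]
    ring

private theorem sum_fst {α β : F} (hα : orderOf α = Fintype.card F - 1)
    (hβ : orderOf β = Fintype.card F - 1) (f : ℕ → ℝ) :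
    ∑ x ∈ all α β, f x.1 = ∑ i ∈ Finset.Icc 1 (Fintype.card F - 2), f i := by
  have hcard : 1 < Fintype.card F := Fintype.one_lt_card
  refine Finset.sum_nbij (fun x => x.1) (fun x hx => ?_) ?_ ?_ (fun x _ => rfl)
  · rw [mem_all'] at hx
    rw [Finset.mem_Icc]
    exact hx.1.1
  · intro x hx y hy hxy
    rw [Finset.mem_coe, mem_all'] at hx hy
    have hxy' : x.1 = y.1 := hxy
    have h1 : β ^ x.2 = β ^ y.2 := by
      have := hx.2.trans hy.2.symm
      rw [hxy'] at this
      exact add_left_cancel this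
    have h2 := pow_inj' hβ (by omega) (by omega) h1
    exact Prod.ext hxy' h2
  · intro i hi
    rw [Finset.mem_coe, Finset.mem_Icc] at hi
    obtain ⟨j, hj⟩ := exists_snd hα hβ hi.1 hi.2
    exact ⟨(i, j), hj, rfl⟩

private theorem sum_swap {α β : F} (f : ℕ → ℝ) :
    ∑ x ∈ all α β, f x.2 = ∑ x ∈ all β α, f x.1 := by
  refine Finset.sum_nbij' Prod.swap Prod.swap (fun x hx => ?_) (fun x hx => ?_) (fun x _ => ?_)
    (fun x _ => ?_) (fun x _ => rfl)
  · rw [mem_all'] at hx ⊢
    exact ⟨⟨hx.1.2, hx.1.1⟩, (add_comm _ _).trans hx.2⟩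
  · rw [mem_all'] at hx ⊢
    exact ⟨⟨hx.1.2, hx.1.1⟩, (add_comm _ _).trans hx.2⟩
  · exact Prod.swap_swap x
  · exact Prod.swap_swap x

private theorem alt_sum (m : ℕ) : ∑ i ∈ Finset.Icc 1 (2 * m), (-1 : ℝ) ^ i = 0 := by
  induction m with
  | zero => simp
  | succ m ih =>
    rw [show 2 * (m + 1) = 2 * m + 1 + 1 by ring, Finset.sum_Icc_succ_top (by omega),
      Finset.sum_Icc_succ_top (by omega), ih]
    rw [pow_succ (-1 : ℝ) (2 * m + 1), pow_succ (-1 : ℝ) (2 * m)]
    ring

private theorem ind (r i : ℕ) (hr : r < 2) :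
    2 * (if i % 2 = r then (1 : ℝ) else 0) = 1 + (-1) ^ r * (-1) ^ i := by
  rcases Nat.even_or_odd' i with ⟨k, rfl | rfl⟩
  · have h : (-1 : ℝ) ^ (2 * k) = 1 := by rw [pow_mul]; norm_num
    rw [h]
    interval_cases r
    · rw [if_pos (by omega)]; norm_num
    · rw [if_neg (by omega)]; norm_num
  · have h : (-1 : ℝ) ^ (2 * k + 1) = -1 := by rw [pow_succ, pow_mul]; norm_num
    rw [h]
    interval_cases r
    · rw [if_neg (by omega)]; norm_num
    · rw [if_pos (by omega)]; norm_num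

theorem pop_eq {α β : F} (hα : orderOf α = Fintype.card F - 1) (hβ : orderOf β = Fintype.card F - 1)
    (hq : Even (Fintype.card F)) {r s : ℕ} (hr : r < 2) (hs : s < 2) :
    4 * (pop α β r s : ℝ) = (Fintype.card F - 2 : ℝ) +
      (-1) ^ (r + s) * ∑ x ∈ all α β, (-1 : ℝ) ^ (x.1 + x.2) := by
  have hcard : 1 < Fintype.card F := Fintype.one_lt_card
  obtain ⟨m, hm⟩ : ∃ m, Fintype.card F - 2 = 2 * m := by
    obtain ⟨c, hc⟩ := hq
    exact ⟨c - 1, by omega⟩
  have h1 : (pop α β r s : ℝ) = ∑ x ∈ all α β,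
      (if x.1 % 2 = r then (1 : ℝ) else 0) * (if x.2 % 2 = s then (1 : ℝ) else 0) := by
    have : dots α β r s = (all α β).filter (fun x => x.1 % 2 = r ∧ x.2 % 2 = s) := by
      unfold dots all
      rw [Finset.filter_filter]
    rw [pop, this, Finset.card_filter]
    push_cast
    refine Finset.sum_congr rfl fun x _ => ?_
    by_cases h1 : x.1 % 2 = r <;> by_cases h2 : x.2 % 2 = s <;> simp [h1, h2]
  have e1 : ∑ x ∈ all α β, (-1 : ℝ) ^ x.1 = 0 := by
    rw [sum_fst hα hβ (fun i => (-1 : ℝ) ^ i), hm, alt_sum]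
  have e2 : ∑ x ∈ all α β, (-1 : ℝ) ^ x.2 = 0 := by
    rw [sum_swap (fun i => (-1 : ℝ) ^ i), sum_fst hβ hα (fun i => (-1 : ℝ) ^ i), hm, alt_sum]
  have e0 : ∑ x ∈ all α β, (1 : ℝ) = (Fintype.card F - 2 : ℝ) := by
    rw [sum_fst hα hβ (fun _ => (1 : ℝ)), Finset.sum_const, Nat.card_Icc, nsmul_eq_mul, mul_one,
      Nat.add_sub_cancel, Nat.cast_sub (by omega)]
    norm_num
  calc 4 * (pop α β r s : ℝ) = ∑ x ∈ all α β, (1 + (-1) ^ r * (-1) ^ x.1) *
        (1 + (-1) ^ s * (-1) ^ x.2) := by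
        rw [h1, Finset.mul_sum]
        refine Finset.sum_congr rfl fun x _ => ?_
        rw [← ind r x.1 hr, ← ind s x.2 hs]
        ring
    _ = ∑ x ∈ all α β, (1 + (-1) ^ r * (-1) ^ x.1 + (-1) ^ s * (-1) ^ x.2 +
          (-1) ^ (r + s) * (-1 : ℝ) ^ (x.1 + x.2)) := by
        refine Finset.sum_congr rfl fun x _ => ?_
        rw [pow_add, pow_add]
        ring
    _ = _ := by
        rw [Finset.sum_add_distrib, Finset.sum_add_distrib, Finset.sum_add_distrib,
          ← Finset.mul_sum, ← Finset.mul_sum, ← Finset.mul_sum, e0, e1, e2]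
        ring

theorem sum_all {α β : F} (hα : orderOf α = Fintype.card F - 1)
    (hβ : orderOf β = Fintype.card F - 1) (f g : F → ℂ) (hf : f 0 = 0) (hg : g 0 = 0) :
    ∑ x ∈ all α β, f (α ^ x.1) * g (β ^ x.2) = ∑ x : F, f x * g (1 - x) := by
  have hcard : 1 < Fintype.card F := Fintype.one_lt_card
  have h1 : ∑ x : F, f x * g (1 - x) =
      ∑ x ∈ (Finset.univ : Finset F).filter (fun x => x ≠ 0 ∧ x ≠ 1), f x * g (1 - x) := by
    rw [Finset.sum_filter]
    refine Finset.sum_congr rfl fun x _ => ?_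
    split_ifs with h
    · rfl
    · by_cases h0 : x = 0
      · rw [h0, hf, zero_mul]
      · have : x = 1 := by tauto
        rw [this, sub_self, hg, mul_zero]
  rw [h1]
  refine Finset.sum_nbij (fun x => α ^ x.1) (fun x hx => ?_) ?_ ?_ (fun x hx => ?_)
  · rw [mem_all'] at hx
    rw [Finset.mem_filter]
    exact ⟨Finset.mem_univ _, pow_ne_zero _ (ne_zero' hα), pow_ne_one' hα (by omega) hx.1.1.1⟩
  · intro x hx y hy hxy
    rw [Finset.mem_coe, mem_all'] at hx hy
    have hxy' : α ^ x.1 = α ^ y.1 := hxy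
    have h1 : β ^ x.2 = β ^ y.2 := by
      have := hx.2.trans hy.2.symm
      rw [hxy'] at this
      exact add_left_cancel this
    exact Prod.ext (pow_inj' hα (by omega) (by omega) hxy') (pow_inj' hβ (by omega) (by omega) h1)
  · intro y hy
    rw [Finset.mem_coe, Finset.mem_filter] at hy
    obtain ⟨i, hi, h2⟩ := exists_pow' hα hy.2.1
    have h3 : 1 ≤ i := by
      by_contra h4
      have : i = 0 := by omega
      subst this
      rw [pow_zero] at h2
      exact hy.2.2 h2.symm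
    obtain ⟨j, hj⟩ := exists_snd hα hβ h3 (by omega)
    exact ⟨(i, j), hj, h2⟩
  · rw [mem_all'] at hx
    have : β ^ x.2 = 1 - α ^ x.1 := by rw [← hx.2]; ring
    rw [this]

end GolPar
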