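import Mathlib

set_option autoImplicit false

/-!
# Parity populations of Golomb Costas arrays: definitions
-/

namespace GolPar

variable {F : Type*} [Field F] [Fintype F] [DecidableEq F]

/-- The dots `(i, j)`, `1 ≤ i, j ≤ q - 2`, `α^i + β^j = 1`, of the Golomb array with `i` of parity `r`
and `j` of parity `s`. -/
def dots (α β : F) (r s : ℕ) : Finset (ℕ × ℕ) :=
  (Finset.Icc 1 (Fintype.card F - 2) ×ˢ Finset.Icc 1 (Fintype.card F - 2)).filter
    (fun x => α ^ x.1 + β ^ x.2 = 1 ∧ x.1 % 2 = r ∧ x.2 % 2 = s)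

/-- Their number. -/
def pop (α β : F) (r s : ℕ) : ℕ := (dots α β r s).card

/-- The Fourier coefficients of `i ↦ (-1)^i` on `ℤ/n`, `n` odd. -/
noncomputable def cc (n : ℕ) (ζ : ℂ) (a : ℕ) : ℂ := 2 / (n * (1 + (ζ ^ a)⁻¹))

end GolPar
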