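import Pool.Agent.GolPar.Defs

set_option autoImplicit false

/-!
# The sum of the absolute values of the Fourier coefficients of the parity
-/

namespace GolPar

private theorem cc_norm {n : ℕ} (hn : Odd n) {a : ℕ} (ha : a ≤ n) :
    ‖cc n (Complex.exp (2 * Real.pi * Complex.I / n)) a‖ ≤ 1 / |(n : ℝ) - 2 * a| := by
  have hn0 : (0 : ℝ) < n := by exact_mod_cast hn.pos
  have hnc : (n : ℂ) ≠ 0 := by exact_mod_cast hn.pos.ne'
  set x : ℝ := Real.pi * a / n with hx
  have h1 : ((Complex.exp (2 * Real.pi * Complex.I / n)) ^ a)⁻¹ =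
      Complex.exp (-(2 * (x : ℂ) * Complex.I)) := by
    rw [← Complex.exp_nat_mul, ← Complex.exp_neg, hx]
    congr 1
    push_cast
    field_simp
  have h2 : 1 + Complex.exp (-(2 * (x : ℂ) * Complex.I)) =
      Complex.exp ((-x : ℝ) * Complex.I) * ((2 * Real.cos x : ℝ) : ℂ) := by
    push_cast
    rw [Complex.two_cos, mul_add, ← Complex.exp_add, ← Complex.exp_add]
    have e1 : -(x : ℂ) * Complex.I + x * Complex.I = 0 := by ring
    have e2 : -(x : ℂ) * Complex.I + -x * Complex.I = -(2 * (x : ℂ) * Complex.I) := by ring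
    rw [e1, e2, Complex.exp_zero]
  have h3 : ‖1 + ((Complex.exp (2 * Real.pi * Complex.I / n)) ^ a)⁻¹‖ = 2 * |Real.cos x| := by
    rw [h1, h2, norm_mul, Complex.norm_exp_ofReal_mul_I, one_mul, Complex.norm_real,
      Real.norm_eq_abs, abs_mul, abs_two]
  have h4 : |(n : ℝ) - 2 * a| ≤ n * |Real.cos x| := by
    have e1 : Real.cos x = Real.sin (Real.pi / 2 - x) := (Real.sin_pi_div_two_sub x).symm
    have e2 : Real.pi / 2 - x = Real.pi / (2 * n) * (n - 2 * a) := by
      rw [hx]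
      field_simp
    have e3 : |Real.pi / 2 - x| = Real.pi / (2 * n) * |(n : ℝ) - 2 * a| := by
      rw [e2, abs_mul, abs_of_pos (by positivity)]
    have ha' : (a : ℝ) ≤ n := by exact_mod_cast ha
    have ha0 : (0 : ℝ) ≤ a := Nat.cast_nonneg a
    have e4 : |(n : ℝ) - 2 * a| ≤ n := abs_le.2 ⟨by linarith, by linarith⟩
    have e5 : |Real.pi / 2 - x| ≤ Real.pi / 2 := by
      rw [e3]
      calc Real.pi / (2 * n) * |(n : ℝ) - 2 * a| ≤ Real.pi / (2 * n) * n :=
            mul_le_mul_of_nonneg_left e4 (by positivity)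
        _ = Real.pi / 2 := by field_simp
    have e6 := Real.mul_abs_le_abs_sin e5
    rw [e1]
    calc |(n : ℝ) - 2 * a| = n * (2 / Real.pi * |Real.pi / 2 - x|) := by
          rw [e3]
          field_simp
      _ ≤ _ := mul_le_mul_of_nonneg_left e6 hn0.le
  have h5 : 0 < |(n : ℝ) - 2 * a| := by
    rw [abs_pos]
    intro h
    obtain ⟨m, hm⟩ := hn
    have : (n : ℤ) - 2 * a = 0 := by exact_mod_cast h
    omega
  have h6 : ‖cc n (Complex.exp (2 * Real.pi * Complex.I / n)) a‖ = 1 / (n * |Real.cos x|) := by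
    rw [cc, norm_div, norm_mul, h3, Complex.norm_natCast, Complex.norm_ofNat]
    have : |Real.cos x| ≠ 0 := by
      intro h
      rw [h, mul_zero] at h4
      linarith
    field_simp
  rw [h6]
  exact one_div_le_one_div_of_le h5 h4

private theorem odd_sum (m : ℕ) :
    ∑ k ∈ Finset.range (m + 1), (1 : ℝ) / (2 * k + 1) ≤ 1 + 1 / 2 * Real.log (2 * m + 1) := by
  induction m with
  | zero => simp
  | succ m ih =>
    rw [Finset.sum_range_succ]
    have h1 : (0 : ℝ) < 2 * m + 1 := by positivity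
    have h2 : (0 : ℝ) < 2 * ((m + 1 : ℕ) : ℝ) + 1 := by positivity
    have h3 : Real.log ((2 * m + 1) / (2 * ((m + 1 : ℕ) : ℝ) + 1)) ≤
        (2 * m + 1) / (2 * ((m + 1 : ℕ) : ℝ) + 1) - 1 := Real.log_le_sub_one_of_pos (by positivity)
    rw [Real.log_div h1.ne' h2.ne'] at h3
    have h4 : (2 * (m : ℝ) + 1) / (2 * ((m + 1 : ℕ) : ℝ) + 1) - 1 =
        -(2 * (1 / (2 * ((m + 1 : ℕ) : ℝ) + 1))) := by
      push_cast at *
      field_simp
      ring
    rw [h4] at h3
    linarith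

theorem sum_cc {n : ℕ} (hn : Odd n) :
    ∑ a ∈ Finset.range n, ‖cc n (Complex.exp (2 * Real.pi * Complex.I / n)) a‖ ≤
      Real.log n + 3 := by
  have hn' := hn
  obtain ⟨m, hm⟩ := hn'
  have h1 : ∑ a ∈ Finset.range n, ‖cc n (Complex.exp (2 * Real.pi * Complex.I / n)) a‖ ≤
      ∑ a ∈ Finset.range n, 1 / |(n : ℝ) - 2 * a| :=
    Finset.sum_le_sum fun a ha => cc_norm hn (Finset.mem_range.1 ha).le
  refine h1.trans ?_
  have hc : (n : ℝ) = 2 * m + 1 := by
    rw [hm]
    push_cast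
    ring
  have h2 : ∑ a ∈ Finset.range n, 1 / |(n : ℝ) - 2 * a| =
      ∑ k ∈ Finset.range (m + 1), (1 : ℝ) / (2 * k + 1) +
        ∑ k ∈ Finset.range m, (1 : ℝ) / (2 * k + 1) := by
    have e1 : n = (m + 1) + m := by omega
    conv_lhs => rw [e1, Finset.sum_range_add]
    congr 1
    · rw [← Finset.sum_range_reflect]
      refine Finset.sum_congr rfl fun k hk => ?_
      have hk' : k ≤ m := Nat.lt_succ_iff.1 (Finset.mem_range.1 hk)
      have e2 : ((m + 1 - 1 - k : ℕ) : ℝ) = m - k := by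
        rw [Nat.add_sub_cancel, Nat.cast_sub hk']
      rw [e2]
      have e3 : (((m + 1 + m : ℕ) : ℝ)) - 2 * (m - k) = 2 * k + 1 := by
        push_cast
        ring
      rw [e3, abs_of_pos (by positivity)]
    · refine Finset.sum_congr rfl fun k hk => ?_
      have e3 : (((m + 1 + m : ℕ) : ℝ)) - 2 * ((m + 1 + k : ℕ) : ℝ) = -(2 * k + 1) := by
        push_cast
        ring
      rw [e3, abs_neg, abs_of_pos (by positivity)]
  have h3 := odd_sum m
  have h4 : ∑ k ∈ Finset.range m, (1 : ℝ) / (2 * k + 1) ≤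
      ∑ k ∈ Finset.range (m + 1), (1 : ℝ) / (2 * k + 1) := by
    rw [Finset.sum_range_succ]
    have : (0 : ℝ) ≤ 1 / (2 * (m : ℝ) + 1) := by positivity
    linarith
  rw [h2, hc]
  linarith

end GolPar
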