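import Mathlib

set_option autoImplicit false

/-!
# Jacobi sums have absolute value at most `√q`

PROOF. `jacobiSum_comm`, `jacobiSum_one_nontrivial` (-1), `jacobiSum_nontrivial_inv` (root of unity),
and for χ, φ, χφ ≠ 1: `jacobiSum_mul_jacobiSum_inv`: J(χ,φ) J(χ⁻¹,φ⁻¹) = q, and J(χ⁻¹,φ⁻¹) is the complex conjugate
of J(χ,φ) (`MulChar.star_apply` / `MulChar.inv_apply'`, values are roots of unity or 0), so |J|² = q.
-/

namespace GolPar

theorem norm_jacobiSum_le {F : Type*} [Field F] [Fintype F] [DecidableEq F] {χ ψ : MulChar F ℂ}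
    (h : χ ≠ 1 ∨ ψ ≠ 1) : ‖jacobiSum χ ψ‖ ≤ Real.sqrt (Fintype.card F) := by
  have h1 : (1 : ℝ) ≤ Real.sqrt (Fintype.card F) := by
    rw [Real.one_le_sqrt]
    exact_mod_cast Fintype.card_pos
  by_cases hχ : χ = 1
  · subst hχ
    have hψ : ψ ≠ 1 := by tauto
    rw [jacobiSum_one_nontrivial hψ, norm_neg, norm_one]
    exact h1
  by_cases hψ : ψ = 1
  · subst hψ
    rw [jacobiSum_comm, jacobiSum_one_nontrivial hχ, norm_neg, norm_one]
    exact h1
  by_cases hm : χ * ψ = 1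
  · obtain rfl : ψ = χ⁻¹ := by rw [eq_comm, inv_eq_iff_mul_eq_one]; exact hm
    rw [jacobiSum_nontrivial_inv hχ, norm_neg]
    have h2 : χ (-1) * χ (-1) = 1 := by
      rw [← map_mul]
      simp
    have h3 : ‖χ (-1)‖ * ‖χ (-1)‖ = 1 := by
      rw [← norm_mul, h2, norm_one]
    have h4 : ‖χ (-1)‖ = 1 := by
      nlinarith [norm_nonneg (χ (-1))]
    rw [h4]
    exact h1
  · have h2 : jacobiSum χ ψ * jacobiSum χ⁻¹ ψ⁻¹ = Fintype.card F := by
      refine jacobiSum_mul_jacobiSum_inv ?_ hχ hψ hm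
      rw [ringChar.eq_zero]
      exact fun h => CharP.ringChar_ne_zero_of_finite F h.symm
    have h3 : jacobiSum χ⁻¹ ψ⁻¹ = (starRingEnd ℂ) (jacobiSum χ ψ) := by
      unfold jacobiSum
      rw [map_sum]
      refine Finset.sum_congr rfl fun x _ => ?_
      rw [map_mul, ← MulChar.star_apply', ← MulChar.star_apply']
      rfl
    rw [h3, Complex.mul_conj, Complex.normSq_eq_norm_sq] at h2
    apply Real.le_sqrt_of_sq_le
    have h4 : ‖jacobiSum χ ψ‖ ^ 2 = (Fintype.card F : ℝ) := by exact_mod_cast h2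
    exact h4.le

end GolPar
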