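import Pool.Agent.GolPar.Four1
import Pool.Agent.GolPar.Four2
import Pool.Agent.GolPar.Jac
import Pool.Agent.GolPar.Cnt

set_option autoImplicit false

/-!
# The populations are asymptotically equal

PROOF. n = q - 1 odd, ζ = exp(2πi/n); χ, ψ : MulChar F ℂ with χ α = ζ, ψ β = ζ (`MulChar.ofRootOfUnity`).
(-1)^i = ∑_a cc a ζ^(a i) = ∑_a cc a (χ^a)(α^i) for 1 ≤ i ≤ q - 2, so
T = ∑_{dots} (-1)^(i+j) = ∑_{a,b} cc a cc b J(χ^a, ψ^b) (sum_all with f = χ^a, g = ψ^b; MulChars vanish
at 0), the term a = b = 0 is cc 0 ^ 2 (q - 2), cc 0 = 1/n; all others have χ^a ≠ 1 or ψ^b ≠ 1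
(0 < a < n, χ has order n). So |T| ≤ (q-2)/(q-1)^2 + √q (log n + 3)^2.
-/

namespace GolPar

variable {F : Type*} [Field F] [Fintype F] [DecidableEq F]

/-- A character with the value `ζ` at the primitive element `α`. -/
private theorem exists_char {α : F} (hα : orderOf α = Fintype.card F - 1) {ζ : ℂ}
    (hζ : IsPrimitiveRoot ζ (Fintype.card F - 1)) : ∃ χ : MulChar F ℂ, χ α = ζ := by
  have hcard : 1 < Fintype.card F := Fintype.one_lt_card
  have hn : Fintype.card F - 1 ≠ 0 := by omega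
  have hα0 : α ≠ 0 := by
    rintro rfl
    rw [orderOf_zero] at hα
    exact hn hα.symm
  have hg : ∀ x : Fˣ, x ∈ Subgroup.zpowers (Units.mk0 α hα0) := by
    intro x
    have h1 : orderOf (Units.mk0 α hα0) = Nat.card Fˣ := by
      rw [Nat.card_eq_fintype_card, Fintype.card_units, ← hα, ← orderOf_units]
      rfl
    have h2 : Subgroup.zpowers (Units.mk0 α hα0) = ⊤ :=
      Subgroup.eq_top_of_card_eq _ ((Nat.card_zpowers _).trans h1)
    rw [h2]
    exact Subgroup.mem_top x
  have hζu : (hζ.isUnit hn).unit ∈ rootsOfUnity (Fintype.card Fˣ) ℂ := by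
    rw [mem_rootsOfUnity]
    ext
    rw [Units.val_pow_eq_pow_val, IsUnit.unit_spec, Fintype.card_units, hζ.pow_eq_one,
      Units.val_one]
  exact ⟨MulChar.ofRootOfUnity hζu hg, MulChar.ofRootOfUnity_spec hζu hg⟩

omit [DecidableEq F] in
/-- The expansion of the parity in terms of characters. -/
private theorem parity_eq {α : F} (hα0 : α ≠ 0) (hq : Odd (Fintype.card F - 1)) {ζ : ℂ}
    (hζ : IsPrimitiveRoot ζ (Fintype.card F - 1)) {χ : MulChar F ℂ} (hχ : χ α = ζ) {i : ℕ}
    (hi : i < Fintype.card F - 1) :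
    (-1 : ℂ) ^ i = ∑ a ∈ Finset.range (Fintype.card F - 1),
      cc (Fintype.card F - 1) ζ a * (χ ^ a) (α ^ i) := by
  rw [four hq hζ hi]
  refine Finset.sum_congr rfl fun a _ => ?_
  have h1 : (χ ^ a) (α ^ i) = ζ ^ (a * i) := by
    have h2 := MulChar.pow_apply_coe χ a (Units.mk0 α hα0 ^ i)
    rw [Units.val_pow_eq_pow_val, Units.val_mk0] at h2
    rw [h2, map_pow, hχ, ← pow_mul, mul_comm]
  rw [h1]

theorem bound {α β : F} (hα : orderOf α = Fintype.card F - 1)
    (hβ : orderOf β = Fintype.card F - 1) (hq : Even (Fintype.card F)) :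
    |∑ x ∈ all α β, (-1 : ℝ) ^ (x.1 + x.2)| ≤
      1 + Real.sqrt (Fintype.card F) * (Real.log (Fintype.card F) + 3) ^ 2 := by
  classical
  have hcard : 1 < Fintype.card F := Fintype.one_lt_card
  set n := Fintype.card F - 1 with hnd
  have hn : n ≠ 0 := by omega
  have hodd : Odd n := Nat.Even.sub_odd (by omega) hq odd_one
  have hα0 : α ≠ 0 := by
    rintro rfl
    rw [orderOf_zero] at hα
    exact hn hα.symm
  have hβ0 : β ≠ 0 := by
    rintro rfl
    rw [orderOf_zero] at hβ
    exact hn hβ.symm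
  set ζ : ℂ := Complex.exp (2 * Real.pi * Complex.I / n) with hζd
  have hζ : IsPrimitiveRoot ζ n := Complex.isPrimitiveRoot_exp n hn
  obtain ⟨χ, hχ⟩ := exists_char hα hζ
  obtain ⟨ψ, hψ⟩ := exists_char hβ hζ
  -- the sum as a combination of Jacobi sums
  have hT : ∑ x ∈ all α β, (-1 : ℂ) ^ (x.1 + x.2) = ∑ a ∈ Finset.range n, ∑ b ∈ Finset.range n,
      cc n ζ a * cc n ζ b * jacobiSum (χ ^ a) (ψ ^ b) := by
    have h1 : ∀ x ∈ all α β, (-1 : ℂ) ^ (x.1 + x.2) = ∑ a ∈ Finset.range n, ∑ b ∈ Finset.range n,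
        cc n ζ a * cc n ζ b * ((χ ^ a) (α ^ x.1) * (ψ ^ b) (β ^ x.2)) := by
      intro x hx
      rw [all, Finset.mem_filter, Finset.mem_product, Finset.mem_Icc, Finset.mem_Icc] at hx
      rw [pow_add, parity_eq hα0 hodd hζ hχ (i := x.1) (by omega),
        parity_eq hβ0 hodd hζ hψ (i := x.2) (by omega), Finset.sum_mul_sum]
      refine Finset.sum_congr rfl fun a _ => Finset.sum_congr rfl fun b _ => ?_
      ring
    rw [Finset.sum_congr rfl h1, Finset.sum_comm]
    refine Finset.sum_congr rfl fun a _ => ?_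
    rw [Finset.sum_comm]
    refine Finset.sum_congr rfl fun b _ => ?_
    rw [← Finset.mul_sum, sum_all hα hβ (fun x => (χ ^ a) x) (fun x => (ψ ^ b) x)
      (MulChar.map_zero _) (MulChar.map_zero _)]
    rfl
  -- norms
  have hne : ∀ {θ : MulChar F ℂ} {γ : F}, θ γ = ζ → ∀ a ∈ Finset.range n, a ≠ 0 → θ ^ a ≠ 1 := by
    intro θ γ h a ha h0 h1
    have hγ : IsUnit γ := by
      by_contra h2
      rw [MulChar.map_nonunit θ h2] at h
      exact Complex.exp_ne_zero _ h.symm
    have h2 : (θ ^ a) γ = 1 := by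
      rw [h1]
      exact MulChar.one_apply hγ
    rw [MulChar.pow_apply' θ h0, h] at h2
    exact hζ.pow_ne_one_of_pos_of_lt h0 (Finset.mem_range.1 ha) h2
  have hterm : ∀ a ∈ Finset.range n, ∀ b ∈ Finset.range n,
      ‖cc n ζ a * cc n ζ b * jacobiSum (χ ^ a) (ψ ^ b)‖ ≤
        ‖cc n ζ a‖ * ‖cc n ζ b‖ * Real.sqrt (Fintype.card F) +
          (if a = 0 then (if b = 0 then 1 else 0) else 0) := by
    intro a ha b hb
    rw [norm_mul, norm_mul]
    have hnn : 0 ≤ ‖cc n ζ a‖ * ‖cc n ζ b‖ := by positivity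
    by_cases h0 : a = 0 ∧ b = 0
    · obtain ⟨rfl, rfl⟩ := h0
      rw [if_pos rfl, if_pos rfl, pow_zero, pow_zero, jacobiSum_one_one]
      have h1 : ‖cc n ζ 0‖ = 1 / n := by
        have : cc n ζ 0 = 1 / n := by
          unfold cc
          rw [pow_zero, inv_one]
          have : (n : ℂ) ≠ 0 := by exact_mod_cast hn
          field_simp
          norm_num
        rw [this, norm_div, norm_one, Complex.norm_natCast]
      have h2 : ‖((Fintype.card F : ℂ) - 2)‖ ≤ n := by
        have : ((Fintype.card F : ℂ) - 2) = ((Fintype.card F - 2 : ℕ) : ℂ) := by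
          rw [Nat.cast_sub (by omega)]
          norm_num
        rw [this, Complex.norm_natCast]
        exact_mod_cast (by omega : Fintype.card F - 2 ≤ n)
      have hn1 : (1 : ℝ) ≤ n := by exact_mod_cast (by omega : 1 ≤ n)
      have h3 : ‖cc n ζ 0‖ * ‖cc n ζ 0‖ * ‖((Fintype.card F : ℂ) - 2)‖ ≤ 1 := by
        rw [h1]
        calc 1 / (n : ℝ) * (1 / n) * ‖((Fintype.card F : ℂ) - 2)‖ ≤ 1 / (n : ℝ) * (1 / n) * n := by
              gcongr
          _ = 1 / n := by field_simp
          _ ≤ 1 := by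
              rw [div_le_one (by linarith)]
              exact hn1
      have h4 : 0 ≤ ‖cc n ζ 0‖ * ‖cc n ζ 0‖ * Real.sqrt (Fintype.card F) := by positivity
      linarith
    · have h1 : χ ^ a ≠ 1 ∨ ψ ^ b ≠ 1 := by
        by_cases ha0 : a = 0
        · right
          exact hne hψ b hb (by tauto)
        · left
          exact hne hχ a ha ha0
      have h2 := norm_jacobiSum_le h1
      have h3 : (0 : ℝ) ≤ if a = 0 then (if b = 0 then 1 else 0) else 0 := by
        split_ifs <;> norm_num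
      have h4 := mul_le_mul_of_nonneg_left h2 hnn
      linarith
  have hsum : ‖∑ x ∈ all α β, (-1 : ℂ) ^ (x.1 + x.2)‖ ≤
      1 + Real.sqrt (Fintype.card F) * (∑ a ∈ Finset.range n, ‖cc n ζ a‖) ^ 2 := by
    rw [hT]
    calc ‖∑ a ∈ Finset.range n, ∑ b ∈ Finset.range n,
          cc n ζ a * cc n ζ b * jacobiSum (χ ^ a) (ψ ^ b)‖
        ≤ ∑ a ∈ Finset.range n, ∑ b ∈ Finset.range n,
          ‖cc n ζ a * cc n ζ b * jacobiSum (χ ^ a) (ψ ^ b)‖ :=
          (norm_sum_le _ _).trans (Finset.sum_le_sum fun a _ => norm_sum_le _ _)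
      _ ≤ ∑ a ∈ Finset.range n, ∑ b ∈ Finset.range n,
          (‖cc n ζ a‖ * ‖cc n ζ b‖ * Real.sqrt (Fintype.card F) +
          (if a = 0 then (if b = 0 then 1 else 0) else 0)) :=
          Finset.sum_le_sum fun a ha => Finset.sum_le_sum fun b hb => hterm a ha b hb
      _ = 1 + Real.sqrt (Fintype.card F) * (∑ a ∈ Finset.range n, ‖cc n ζ a‖) ^ 2 := by
          simp only [Finset.sum_add_distrib]
          have h1 : ∑ a ∈ Finset.range n, ∑ b ∈ Finset.range n,
              (if a = 0 then (if b = 0 then (1 : ℝ) else 0) else 0) = 1 := by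
            rw [Finset.sum_eq_single_of_mem 0 (Finset.mem_range.2 (by omega))
              (fun b _ hb => by simp [hb]),
              Finset.sum_eq_single_of_mem 0 (Finset.mem_range.2 (by omega))
              (fun b _ hb => by simp [hb])]
            simp
          rw [h1, sq, Finset.sum_mul_sum, Finset.mul_sum, add_comm]
          congr 1
          refine Finset.sum_congr rfl fun a _ => ?_
          rw [Finset.mul_sum]
          refine Finset.sum_congr rfl fun b _ => ?_
          ring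
  have hreal : |∑ x ∈ all α β, (-1 : ℝ) ^ (x.1 + x.2)| =
      ‖∑ x ∈ all α β, (-1 : ℂ) ^ (x.1 + x.2)‖ := by
    have : ∑ x ∈ all α β, (-1 : ℂ) ^ (x.1 + x.2) =
        ((∑ x ∈ all α β, (-1 : ℝ) ^ (x.1 + x.2) : ℝ) : ℂ) := by
      push_cast
      rfl
    rw [this, Complex.norm_real, Real.norm_eq_abs]
  rw [hreal]
  refine hsum.trans ?_
  have h5 : ∑ a ∈ Finset.range n, ‖cc n ζ a‖ ≤ Real.log (Fintype.card F) + 3 := by
    refine (sum_cc hodd).trans ?_
    have : Real.log n ≤ Real.log (Fintype.card F) := by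
      apply Real.log_le_log
      · exact_mod_cast (by omega : 0 < n)
      · exact_mod_cast (by omega : n ≤ Fintype.card F)
    linarith
  have h6 : 0 ≤ ∑ a ∈ Finset.range n, ‖cc n ζ a‖ := Finset.sum_nonneg fun _ _ => norm_nonneg _
  gcongr

end GolPar
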