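import Pool.Agent.GolPar.Defs

set_option autoImplicit false

/-!
# Fourier expansion of the parity
-/

namespace GolPar

theorem four {n : ℕ} (hn : Odd n) {ζ : ℂ} (hζ : IsPrimitiveRoot ζ n) {i : ℕ} (hi : i < n) :
    (-1 : ℂ) ^ i = ∑ a ∈ Finset.range n, cc n ζ a * ζ ^ (a * i) := by
  have hn0 : 0 < n := hn.pos
  have hnC : (n : ℂ) ≠ 0 := Nat.cast_ne_zero.2 hn0.ne'
  have hζ0 : ζ ≠ 0 := hζ.ne_zero hn0.ne'
  -- the coefficients as sums
  have h1 : ∀ a, cc n ζ a = (1 / n) * ∑ j ∈ Finset.range n, (-1 : ℂ) ^ j * ((ζ ^ a)⁻¹) ^ j := by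
    intro a
    set w := (ζ ^ a)⁻¹ with hw
    have hwn : w ^ n = 1 := by
      rw [hw, inv_pow, ← pow_mul, mul_comm, pow_mul, hζ.pow_eq_one, one_pow, inv_one]
    have hw1 : 1 + w ≠ 0 := by
      intro h
      have h2 : w = -1 := by linear_combination h
      rw [h2, hn.neg_one_pow] at hwn
      norm_num at hwn
    have h3 : ∑ j ∈ Finset.range n, (-1 : ℂ) ^ j * w ^ j = ∑ j ∈ Finset.range n, (-w) ^ j := by
      refine Finset.sum_congr rfl fun j _ => ?_
      rw [← mul_pow, neg_one_mul]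
    have h4 : (-w) ≠ 1 := by
      intro h
      apply hw1
      linear_combination -h
    rw [h3, geom_sum_eq h4, neg_pow, hn.neg_one_pow, hwn, cc, ← hw]
    have h5 : (-w - 1 : ℂ) = -(1 + w) := by ring
    rw [h5, div_eq_iff (mul_ne_zero hnC hw1)]
    have h6 : (-1 * 1 - 1 : ℂ) / -(1 + w) = 2 / (1 + w) := by
      rw [div_neg, ← neg_div]; norm_num
    rw [h6]
    field_simp
  -- orthogonality
  have h2 : ∀ j ∈ Finset.range n, ∑ a ∈ Finset.range n, ((ζ ^ a)⁻¹) ^ j * ζ ^ (a * i) =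
      if j = i then (n : ℂ) else 0 := by
    intro j hj
    rw [Finset.mem_range] at hj
    have h3 : ∀ a, ((ζ ^ a)⁻¹) ^ j * ζ ^ (a * i) = (ζ ^ i * (ζ ^ j)⁻¹) ^ a := by
      intro a
      rw [mul_pow, inv_pow, inv_pow, ← pow_mul, ← pow_mul, ← pow_mul, mul_comm a j, mul_comm a i,
        mul_comm]
    rw [Finset.sum_congr rfl fun a _ => h3 a]
    split_ifs with hji
    · subst hji
      rw [mul_inv_cancel₀ (pow_ne_zero _ hζ0)]
      simp
    · have h4 : ζ ^ i * (ζ ^ j)⁻¹ ≠ 1 := by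
        intro h
        rw [mul_inv_eq_one₀ (pow_ne_zero _ hζ0)] at h
        exact hji (hζ.pow_inj hi hj h).symm
      have h5 : (ζ ^ i * (ζ ^ j)⁻¹) ^ n = 1 := by
        rw [mul_pow, inv_pow, ← pow_mul, ← pow_mul, mul_comm i, mul_comm j, pow_mul, pow_mul,
          hζ.pow_eq_one, one_pow, one_pow, inv_one, one_mul]
      rw [geom_sum_eq h4, h5, sub_self, zero_div]
  have h3 : ∀ a, cc n ζ a * ζ ^ (a * i) = ∑ j ∈ Finset.range n,
      (1 / n) * ((-1 : ℂ) ^ j * (((ζ ^ a)⁻¹) ^ j * ζ ^ (a * i))) := by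
    intro a
    rw [h1, mul_assoc, Finset.sum_mul, Finset.mul_sum]
    refine Finset.sum_congr rfl fun j _ => ?_
    ring
  rw [Finset.sum_congr rfl fun a _ => h3 a, Finset.sum_comm]
  have h4 : ∀ j ∈ Finset.range n, ∑ a ∈ Finset.range n,
      (1 / n : ℂ) * ((-1 : ℂ) ^ j * (((ζ ^ a)⁻¹) ^ j * ζ ^ (a * i))) =
      if j = i then (-1 : ℂ) ^ i else 0 := by
    intro j hj
    rw [← Finset.mul_sum, ← Finset.mul_sum, h2 j hj]
    split_ifs with hji
    · subst hji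
      field_simp
    · simp
  rw [Finset.sum_congr rfl h4, Finset.sum_ite_eq' (Finset.range n) i, if_pos (Finset.mem_range.2 hi)]

end GolPar
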